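import Pool.Agent.H12.EV.Model
import Pool.Agent.H12.EU.Const

/-!
# The Kakutani 5x+1 map: lower bound for the counts by the model probabilities
-/

set_option autoImplicit false

namespace Pool.Agent.H87.EV

open Pool.Agent.H12.EV Pool.Agent.H12.EU Pool.Agent.H83.EX

private theorem stepF {k T : ℕ} (hk : k = 2 ∨ k = 3) (hT : 1 ≤ T) {R f u S U : ℝ} (hR0 : 0 < R) (hR1 : R ≤ 1)
    (hf0 : 0 ≤ f) (hf1 : f ≤ 1) (hS : S = k * f) (hU0 : 0 ≤ U)
    (hu : (k : ℝ) ^ (-(43 / 50) : ℝ) * U / k + 1 / 10000 ≤ u) :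
    (T : ℝ) * f - 20000 * u * (T : ℝ) ^ (43 / 50 : ℝ) / R ≤
      ((T / k : ℕ) : ℝ) * S - 20000 * U * ((T / k : ℕ) : ℝ) ^ (43 / 50 : ℝ) / (k * R) := by
  have hk0 : (0 : ℝ) < k := by
    rcases hk with rfl | rfl <;> norm_num
  have h1 : (T : ℝ) * f - 2 ≤ ((T / k : ℕ) : ℝ) * S := by
    have h2 : (T : ℝ) - 2 ≤ k * ((T / k : ℕ) : ℝ) := by
      have h3 : T ≤ k * (T / k) + 2 := by
        rcases hk with rfl | rfl <;> omega
      have h4 : (T : ℝ) ≤ ((k * (T / k) + 2 : ℕ) : ℝ) := by exact_mod_cast h3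
      push_cast at h4
      linarith
    have h5 : ((T / k : ℕ) : ℝ) * S = (k * ((T / k : ℕ) : ℝ)) * f := by
      rw [hS]
      ring
    rw [h5]
    have h6 := mul_le_mul_of_nonneg_right h2 hf0
    linarith
  have hT1 : (1 : ℝ) ≤ T := by exact_mod_cast hT
  have hp1 : 1 ≤ (T : ℝ) ^ (43 / 50 : ℝ) := Real.one_le_rpow hT1 (by norm_num)
  have h4 : ((T / k : ℕ) : ℝ) ^ (43 / 50 : ℝ) ≤ (T : ℝ) ^ (43 / 50 : ℝ) * (k : ℝ) ^ (-(43 / 50) : ℝ) := by
    have h5 : ((T / k : ℕ) : ℝ) ≤ (T : ℝ) / k := Nat.cast_div_le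
    calc ((T / k : ℕ) : ℝ) ^ (43 / 50 : ℝ) ≤ ((T : ℝ) / k) ^ (43 / 50 : ℝ) :=
          Real.rpow_le_rpow (Nat.cast_nonneg _) h5 (by norm_num)
      _ = (T : ℝ) ^ (43 / 50 : ℝ) * (k : ℝ) ^ (-(43 / 50) : ℝ) := by
          rw [Real.div_rpow (by positivity) hk0.le, Real.rpow_neg hk0.le, div_eq_mul_inv]
  generalize (T : ℝ) ^ (43 / 50 : ℝ) = P at hp1 h4 ⊢
  generalize ((T / k : ℕ) : ℝ) ^ (43 / 50 : ℝ) = X at h4 ⊢
  generalize (k : ℝ) ^ (-(43 / 50) : ℝ) = y at h4 hu ⊢
  have h7 : U * X / k ≤ (u - 1 / 10000) * P := by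
    calc U * X / k ≤ U * (P * y) / k :=
          div_le_div_of_nonneg_right (mul_le_mul_of_nonneg_left h4 hU0) hk0.le
      _ = (y * U / k) * P := by ring
      _ ≤ (u - 1 / 10000) * P := mul_le_mul_of_nonneg_right (by linarith) (by linarith)
  have e1 : 20000 * U * X / (k * R) = 20000 * (U * X / k) / R := by
    field_simp
  have h8 : 20000 * (U * X / k) / R ≤ 20000 * ((u - 1 / 10000) * P) / R :=
    div_le_div_of_nonneg_right (by linarith) hR0.le
  have e2 : 20000 * ((u - 1 / 10000) * P) / R = 20000 * u * P / R - 2 * (P / R) := by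
    field_simp
    ring
  have h9 : 1 ≤ P / R := by
    rw [le_div_iff₀ hR0]
    linarith
  rw [e1]
  rw [e2] at h8
  linarith

private theorem uU_pos (r : ℕ) : 0 < uU r := by
  unfold uU
  split <;> norm_num

theorem lowF : ∃ B : ℝ, 0 ≤ B ∧ ∀ (T A Q : ℕ) (L R : ℝ), Q % 2 = 1 → Q % 3 ≠ 0 → 0 < L → 0 < R →
    (T : ℝ) * F (A % 6) L R - B * (T : ℝ) ^ (43 / 50 : ℝ) / R ≤ NL A Q L R T := by
  have t2 := two_powU
  have t3 := three_powU
  have base : ∀ (T A Q : ℕ) (L R : ℝ), 0 < R → (L ≤ 1 ∨ 1 < R) →
      (T : ℝ) * F (A % 6) L R - 20000 * uU (A % 6) * (T : ℝ) ^ (43 / 50 : ℝ) / R ≤ NL A Q L R T := by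
    intro T A Q L R hR h2
    have hT0 : (0 : ℝ) ≤ T := Nat.cast_nonneg T
    have hE : 0 ≤ 20000 * uU (A % 6) * (T : ℝ) ^ (43 / 50 : ℝ) / R := by
      have := uU_pos (A % 6)
      positivity
    by_cases hR1 : R ≤ 1
    · rcases h2 with h2 | h2
      · rw [NL_all A Q L R h2 hR1 T, F_one h2 hR1]
        linarith
      · exact absurd hR1 (not_le.mpr h2)
    · rw [F_zero (not_le.1 hR1)]
      have h3 : (0 : ℝ) ≤ (NL A Q L R T : ℝ) := Nat.cast_nonneg _
      linarith
  have main : ∀ (T A Q : ℕ) (L R : ℝ), Q % 2 = 1 → Q % 3 ≠ 0 → 0 < L → 0 < R →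
      (T : ℝ) * F (A % 6) L R - 20000 * uU (A % 6) * (T : ℝ) ^ (43 / 50 : ℝ) / R ≤ NL A Q L R T := by
    intro T
    induction T using Nat.strong_induction_on with
    | _ T ih =>
      rcases Nat.eq_zero_or_pos T with hT | hT
      · subst hT
        intro A Q L R _ _ _ _
        rw [Nat.cast_zero, Real.zero_rpow (by norm_num)]
        simp
      · have key : ∀ (A Q : ℕ) (L R : ℝ), Q % 2 = 1 → Q % 3 ≠ 0 → 1 < L → 0 < R → R ≤ 1 →
            A % 6 ≠ 1 → A % 6 ≠ 5 →
            (T : ℝ) * F (A % 6) L R - 20000 * uU (A % 6) * (T : ℝ) ^ (43 / 50 : ℝ) / R ≤ NL A Q L R T := by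
          intro A Q L R hQ2 hQ3 hL hR0 hR1 h1 h5
          have hr : A % 6 < 6 := Nat.mod_lt _ (by norm_num)
          have hL0 : 0 < L := by linarith
          have hT2 : T / 2 < T := Nat.div_lt_self hT (by norm_num)
          have hT3 : T / 3 < T := Nat.div_lt_self hT (by norm_num)
          have hcase : A % 6 = 0 ∨ A % 6 = 2 ∨ A % 6 = 3 ∨ A % 6 = 4 := by omega
          have ev : A % 2 = 0 → ∀ i j : ℕ, ((A / 2) % 6 = i ∧ (A / 2 + 3 * Q) % 6 = j ∨
              (A / 2) % 6 = j ∧ (A / 2 + 3 * Q) % 6 = i) →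
              F (A % 6) L R = (F i (2 * L) (2 * R) + F j (2 * L) (2 * R)) / 2 →
              (2 : ℝ) ^ (-(43 / 50) : ℝ) * (uU i + uU j) / 2 + 1 / 10000 ≤ uU (A % 6) →
              (T : ℝ) * F (A % 6) L R - 20000 * uU (A % 6) * (T : ℝ) ^ (43 / 50 : ℝ) / R ≤
                NL A Q L R T := by
            intro hA2 i j hij hF hu
            have hn := NL_even A Q L R hR1 T hA2
            have hnr : (NL (A / 2) Q (2 * L) (2 * R) (T / 2) : ℝ) +
                (NL (A / 2 + 3 * Q) Q (2 * L) (2 * R) (T / 2) : ℝ) ≤ (NL A Q L R T : ℝ) := by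
              exact_mod_cast hn
            have i1 := ih (T / 2) hT2 (A / 2) Q (2 * L) (2 * R) hQ2 hQ3 (by linarith) (by linarith)
            have i2 := ih (T / 2) hT2 (A / 2 + 3 * Q) Q (2 * L) (2 * R) hQ2 hQ3 (by linarith)
              (by linarith)
            have hst := stepF (k := 2) (T := T) (R := R) (f := F (A % 6) L R) (u := uU (A % 6))
              (S := F i (2 * L) (2 * R) + F j (2 * L) (2 * R)) (U := uU i + uU j) (Or.inl rfl) hT hR0 hR1
              (F_nonneg _ _ _) (F_le_one _ _ _) (by push_cast; rw [hF]; ring)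
              (add_nonneg (uU_pos i).le (uU_pos j).le) (by push_cast; exact hu)
            push_cast at hst
            have e1 : ((T / 2 : ℕ) : ℝ) * (F i (2 * L) (2 * R) + F j (2 * L) (2 * R)) -
                20000 * (uU i + uU j) * ((T / 2 : ℕ) : ℝ) ^ (43 / 50 : ℝ) / (2 * R) =
                (((T / 2 : ℕ) : ℝ) * F i (2 * L) (2 * R) -
                  20000 * uU i * ((T / 2 : ℕ) : ℝ) ^ (43 / 50 : ℝ) / (2 * R)) +
                (((T / 2 : ℕ) : ℝ) * F j (2 * L) (2 * R) -
                  20000 * uU j * ((T / 2 : ℕ) : ℝ) ^ (43 / 50 : ℝ) / (2 * R)) := by ring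
            rw [e1] at hst
            rcases hij with ⟨e1, e2⟩ | ⟨e1, e2⟩
            · rw [e1] at i1
              rw [e2] at i2
              linarith
            · rw [e1] at i1
              rw [e2] at i2
              linarith
          rcases hcase with h | h | h | h
          · refine ev (by omega) 0 3 (by omega) ?_ ?_
            · rw [F_step hL hR1, h]
              unfold Op
              rw [if_pos rfl]
            · rw [h]
              simp only [uU]
              linarith
          · refine ev (by omega) 1 4 (by omega) ?_ ?_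
            · rw [F_step hL hR1, h]
              unfold Op
              rw [if_neg (by norm_num), if_neg (by norm_num), if_pos rfl]
            · rw [h]
              simp only [uU]
              linarith
          · have hn := NL_three A Q L R hR1 T h
            have hnr : (NL (A / 3) Q (3 * L) (3 * R) (T / 3) : ℝ) +
                (NL (A / 3 + 2 * Q) Q (3 * L) (3 * R) (T / 3) : ℝ) +
                (NL (A / 3 + 4 * Q) Q (3 * L) (3 * R) (T / 3) : ℝ) ≤ (NL A Q L R T : ℝ) := by
              exact_mod_cast hn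
            have i1 := ih (T / 3) hT3 (A / 3) Q (3 * L) (3 * R) hQ2 hQ3 (by linarith) (by linarith)
            have i2 := ih (T / 3) hT3 (A / 3 + 2 * Q) Q (3 * L) (3 * R) hQ2 hQ3 (by linarith)
              (by linarith)
            have i3 := ih (T / 3) hT3 (A / 3 + 4 * Q) Q (3 * L) (3 * R) hQ2 hQ3 (by linarith)
              (by linarith)
            have hF : F (A % 6) L R =
                (F 1 (3 * L) (3 * R) + F 3 (3 * L) (3 * R) + F 5 (3 * L) (3 * R)) / 3 := by
              rw [F_step hL hR1, h]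
              unfold Op
              rw [if_neg (by norm_num), if_neg (by norm_num), if_neg (by norm_num), if_pos rfl]
            have hst := stepF (k := 3) (T := T) (R := R) (f := F (A % 6) L R) (u := uU (A % 6))
              (S := F 1 (3 * L) (3 * R) + F 3 (3 * L) (3 * R) + F 5 (3 * L) (3 * R))
              (U := uU 1 + uU 3 + uU 5) (Or.inr rfl) hT hR0 hR1
              (F_nonneg _ _ _) (F_le_one _ _ _) (by push_cast; rw [hF]; ring)
              (add_nonneg (add_nonneg (uU_pos 1).le (uU_pos 3).le) (uU_pos 5).le)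
              (by
                rw [h]
                simp only [uU]
                push_cast
                linarith)
            push_cast at hst
            have e0 : ((T / 3 : ℕ) : ℝ) * (F 1 (3 * L) (3 * R) + F 3 (3 * L) (3 * R) + F 5 (3 * L) (3 * R)) -
                20000 * (uU 1 + uU 3 + uU 5) * ((T / 3 : ℕ) : ℝ) ^ (43 / 50 : ℝ) / (3 * R) =
                (((T / 3 : ℕ) : ℝ) * F 1 (3 * L) (3 * R) -
                  20000 * uU 1 * ((T / 3 : ℕ) : ℝ) ^ (43 / 50 : ℝ) / (3 * R)) +
                (((T / 3 : ℕ) : ℝ) * F 3 (3 * L) (3 * R) -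
                  20000 * uU 3 * ((T / 3 : ℕ) : ℝ) ^ (43 / 50 : ℝ) / (3 * R)) +
                (((T / 3 : ℕ) : ℝ) * F 5 (3 * L) (3 * R) -
                  20000 * uU 5 * ((T / 3 : ℕ) : ℝ) ^ (43 / 50 : ℝ) / (3 * R)) := by ring
            rw [e0] at hst
            have hc := three_cases A Q h hQ2 hQ3
            rcases hc with ⟨e1, e2, e3⟩ | ⟨e1, e2, e3⟩ | ⟨e1, e2, e3⟩ | ⟨e1, e2, e3⟩ |
              ⟨e1, e2, e3⟩ | ⟨e1, e2, e3⟩ <;>
            · rw [e1] at i1
              rw [e2] at i2
              rw [e3] at i3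
              linarith
          · refine ev (by omega) 2 5 (by omega) ?_ ?_
            · rw [F_step hL hR1, h]
              unfold Op
              rw [if_neg (by norm_num), if_neg (by norm_num), if_neg (by norm_num),
                if_neg (by norm_num), if_pos rfl]
            · rw [h]
              simp only [uU]
              linarith
        intro A Q L R hQ2 hQ3 hL hR
        by_cases hb : L ≤ 1 ∨ 1 < R
        · exact base T A Q L R hR hb
        · push Not at hb
          obtain ⟨hL1, hR1⟩ := hb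
          have low : ∀ (A' Q' : ℕ) (L' R' : ℝ), Q' % 2 = 1 → Q' % 3 ≠ 0 → 0 < R' →
              A' % 6 ≠ 1 → A' % 6 ≠ 5 →
              (T : ℝ) * F (A' % 6) L' R' - 20000 * uU (A' % 6) * (T : ℝ) ^ (43 / 50 : ℝ) / R' ≤
                NL A' Q' L' R' T := by
            intro A' Q' L' R' g1 g2 gR g4 g5
            by_cases g6 : L' ≤ 1 ∨ 1 < R'
            · exact base T A' Q' L' R' gR g6
            · push Not at g6
              exact key A' Q' L' R' g1 g2 g6.1 gR g6.2 g4 g5
          have conv : ∀ r' : ℕ, ∀ f : ℝ, 5 * uU r' ≤ uU (A % 6) →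
              (T : ℝ) * f - 20000 * uU (A % 6) * (T : ℝ) ^ (43 / 50 : ℝ) / R ≤
                (T : ℝ) * f - 20000 * uU r' * (T : ℝ) ^ (43 / 50 : ℝ) / (R / 5) := by
            intro r' f h
            have e1 : 20000 * uU r' * (T : ℝ) ^ (43 / 50 : ℝ) / (R / 5) =
                20000 * (5 * uU r') * (T : ℝ) ^ (43 / 50 : ℝ) / R := by
              field_simp
            rw [e1]
            have h2 : 20000 * (5 * uU r') * (T : ℝ) ^ (43 / 50 : ℝ) / R ≤
                20000 * uU (A % 6) * (T : ℝ) ^ (43 / 50 : ℝ) / R := by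
              refine div_le_div_of_nonneg_right (mul_le_mul_of_nonneg_right (by linarith) ?_) hR.le
              positivity
            linarith
          by_cases h1 : A % 6 = 1
          · have hn := NL_five A Q L R hL.le hR.le hR1 T (Or.inl h1)
            have hnr : (NL (5 * A + 1) (5 * Q) (L / 5) (R / 5) T : ℝ) ≤ (NL A Q L R T : ℝ) := by
              exact_mod_cast hn
            have e : (5 * A + 1) % 6 = 0 := by omega
            have i1 := low (5 * A + 1) (5 * Q) (L / 5) (R / 5) (by omega) (by omega)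
              (by linarith) (by omega) (by omega)
            rw [e] at i1
            have hF : F (A % 6) L R = F 0 (L / 5) (R / 5) := by
              rw [F_step hL1 hR1, h1]
              unfold Op
              rw [if_neg (by norm_num), if_pos rfl]
            rw [hF]
            exact ((conv 0 _ (by rw [h1]; simp only [uU]; norm_num)).trans i1).trans hnr
          · by_cases h5 : A % 6 = 5
            · have hn := NL_five A Q L R hL.le hR.le hR1 T (Or.inr h5)
              have hnr : (NL (5 * A + 1) (5 * Q) (L / 5) (R / 5) T : ℝ) ≤ (NL A Q L R T : ℝ) := by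
                exact_mod_cast hn
              have e : (5 * A + 1) % 6 = 2 := by omega
              have i1 := low (5 * A + 1) (5 * Q) (L / 5) (R / 5) (by omega) (by omega)
                (by linarith) (by omega) (by omega)
              rw [e] at i1
              have hF : F (A % 6) L R = F 2 (L / 5) (R / 5) := by
                rw [F_step hL1 hR1, h5]
                unfold Op
                rw [if_neg (by norm_num), if_neg (by norm_num), if_neg (by norm_num),
                  if_neg (by norm_num), if_neg (by norm_num)]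
              rw [hF]
              exact ((conv 2 _ (by rw [h5]; simp only [uU]; norm_num)).trans i1).trans hnr
            · exact key A Q L R hQ2 hQ3 hL1 hR hR1 h1 h5
  refine ⟨100000, by norm_num, fun T A Q L R hQ2 hQ3 hL hR => (le_trans ?_ (main T A Q L R hQ2 hQ3 hL hR))⟩
  have h1 : 20000 * uU (A % 6) * (T : ℝ) ^ (43 / 50 : ℝ) / R ≤ 100000 * (T : ℝ) ^ (43 / 50 : ℝ) / R := by
    have h2 := uU_le (A % 6)
    refine div_le_div_of_nonneg_right (mul_le_mul_of_nonneg_right (by linarith) ?_) hR.le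
    positivity
  linarith

end Pool.Agent.H87.EV
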